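import Pool.Agent.H59.Lam.Erg
import Pool.Agent.H59.Lam.Trans

set_option autoImplicit false

open Set Topology Filter MeasureTheory
open scoped Manifold ContDiff
open Pool.Agent.H59.Lam

namespace Pool.Agent.Results.MP_ec4b97_an.LamYes

/-- There is a minimal holomorphic lamination by Riemann surfaces in a compact complex manifold
carrying uncountably many pairwise non-proportional extremal positive `dd^c`-closed directed
currents, none of which is closed. -/
theorem result :
    ∃ (V : Type) (_ : NormedAddCommGroup V) (_ : NormedSpace ℂ V) (_ : FiniteDimensional ℂ V)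
      (X : Type) (_ : TopologicalSpace X) (_ : ChartedSpace V X),
    CompactSpace X ∧ T2Space X ∧ ConnectedSpace X ∧ IsManifold 𝓘(ℂ, V) ω X ∧
    ∃ L : Lamination V X, L.IsMinimal ∧ L.HasUncountablyMany := by
  obtain ⟨Y, hYc, hYn, hYi, hYm, m, hinj, hm⟩ := exists_dynamics
  obtain ⟨F, hFc, hFr, hFi⟩ := exists_coding
  let C : Cod := ⟨Y, hYc, hYn, hYi, hYm, F, hFc, hFr, hFi⟩
  have hprob : ∀ t, IsProbabilityMeasure (m t) := fun t => (hm t).1
  have hex : ∀ t, ∃ T : Current V4 XX, C.toK.lam.IsExtremal T ∧ mT T = C.Im (m t) := by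
    intro t
    exact C.toK.exists_extremal (C.IF_Im (hm t).2.1 (hm t).2.2.toMeasurePreserving)
      (C.Im_one (m t)) (fun I₁ I₂ h₁ h₂ hs => C.erg (hm t).2.2 h₁ h₂ hs)
  choose T hT hTI using hex
  have hprop : ∀ s t, (∃ c : ℝ, T t = c • T s) → s = t := by
    rintro s t ⟨c, hc⟩
    have h1 : C.Im (m t) = c • C.Im (m s) := by rw [← hTI, ← hTI, hc, mT_smul]
    have h2 : (1 : ℝ) = c := by
      have h3 := congrArg (fun I : Bp →ₗ[ℝ] ℝ => I 1) h1
      have h4 : C.Im (m t) 1 = c * C.Im (m s) 1 := h3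
      rw [C.Im_one, C.Im_one, mul_one] at h4
      exact h4
    rw [← h2, one_smul] at h1
    exact hinj (C.measure_eq h1).symm
  refine ⟨V4, inferInstance, inferInstance, inferInstance, XX, inferInstance, inferInstance,
    inferInstance, inferInstance, inferInstance, inferInstance, C.toK.lam, C.toK.minimal,
    hasUncountablyMany_of C.toK.good (S := range T) ?_ ?_ ?_⟩
  · intro hcount
    have hTinj : Function.Injective T := fun s t h => hprop s t ⟨1, by rw [one_smul, h]⟩
    have h1 : Countable (range T) := hcount.to_subtype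
    have h2 : Countable (Ioo (0 : ℝ) 1) := (Equiv.ofInjective T hTinj).countable_iff.mpr h1
    have h3 : Cardinal.mk (Ioo (0 : ℝ) 1) ≤ Cardinal.aleph0 := Cardinal.mk_le_aleph0_iff.mpr h2
    rw [Cardinal.mk_Ioo_real one_pos] at h3
    exact absurd h3 (not_le.mpr Cardinal.aleph0_lt_continuum)
  · rintro _ ⟨t, rfl⟩
    exact ⟨hT t, C.toK.not_closed (hT t).2.1.1 (hT t).2.1.2.1 (hT t).1⟩
  · rintro _ ⟨s, rfl⟩ _ ⟨t, rfl⟩ hne c hc
    apply hne
    rw [hprop s t ⟨c, hc⟩]

end Pool.Agent.Results.MP_ec4b97_an.LamYes
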